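import Pool.Agent.Run7.h876.GN.Gen

/-!
# Local means up to the second order
-/

set_option autoImplicit false
set_option linter.unusedSectionVars false

namespace Run7.h61.JL

open NumberField IsDedekindDomain Finset Filter Topology
open Run7.h876.MM (nv kv two_le_nv nv_pos avg card_kv xv norm_xv instFieldKv instFintypeKv instDecKv norm_avg_le avg_sub')
open Run7.h876.EN
open Run7.h876.GN
open Run7.h876.HY (one_le_nv)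

/-- the constant of the expansion -/
noncomputable def BE (A₀ A₁ A₂ : ℝ) : ℝ := A₀ ^ 3 * Real.exp A₀ + A₂ * (A₁ + A₂) + A₀ * (1 + (A₁ + A₂ + A₀))

theorem avg_exp_close {α : Type} [Fintype α] [Nonempty α] (z l₁ l₂ : α → ℂ) (Y : ℂ) {A₀ A₁ A₂ C₁ C₂ : ℝ}
    (hA₀ : 0 ≤ A₀) (hA₁ : 0 ≤ A₁) (hA₂ : 0 ≤ A₂) (hY : ‖Y‖ ≤ 1)
    (hz : ∀ t, ‖z t‖ ≤ A₀ * ‖Y‖) (hE : ∀ t, ‖z t - (l₁ t * Y + l₂ t * Y ^ 2)‖ ≤ A₀ * ‖Y‖ ^ 3)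
    (h1 : ∀ t, ‖l₁ t‖ ≤ A₁) (h2 : ∀ t, ‖l₂ t‖ ≤ A₂)
    (m1 : ‖avg Finset.univ l₁‖ ≤ C₁) (m2 : ‖avg Finset.univ (fun t => l₂ t + l₁ t ^ 2 / 2)‖ ≤ C₂) :
    ‖avg Finset.univ (fun t => Complex.exp (z t)) - 1‖ ≤ C₁ * ‖Y‖ + C₂ * ‖Y‖ ^ 2 + BE A₀ A₁ A₂ * ‖Y‖ ^ 3 := by
  have hcard : ((Finset.univ : Finset α).card : ℂ) ≠ 0 := by
    have : 0 < (Finset.univ : Finset α).card := Finset.card_pos.2 Finset.univ_nonempty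
    exact_mod_cast this.ne'
  have hpt : ∀ t, ‖Complex.exp (z t) - (1 + l₁ t * Y + (l₂ t * Y ^ 2 + (l₁ t * Y) ^ 2 / 2))‖ ≤ BE A₀ A₁ A₂ * ‖Y‖ ^ 3 := by
    intro t
    have h := exp_expand (z := z t) (L1 := l₁ t * Y) (L2 := l₂ t * Y ^ 2) (A₀ := A₀) (A₁ := A₁) (A₂ := A₂) (x := 0) (y := ‖Y‖)
      hA₀ hA₁ hA₂ le_rfl zero_le_one (norm_nonneg _) hY (hz t) (by simpa using hE t)
      (by rw [norm_mul]; exact mul_le_mul_of_nonneg_right (h1 t) (norm_nonneg _))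
      (by rw [norm_mul, norm_pow]; exact mul_le_mul_of_nonneg_right (h2 t) (by positivity))
    rw [zero_pow two_ne_zero, zero_add] at h
    exact h
  have hmain : avg Finset.univ (fun t => 1 + l₁ t * Y + (l₂ t * Y ^ 2 + (l₁ t * Y) ^ 2 / 2)) - 1 =
      avg Finset.univ l₁ * Y + avg Finset.univ (fun t => l₂ t + l₁ t ^ 2 / 2) * Y ^ 2 := by
    unfold avg
    have g2 : ∀ t, 1 + l₁ t * Y + (l₂ t * Y ^ 2 + (l₁ t * Y) ^ 2 / 2) = 1 + Y * l₁ t + Y ^ 2 * (l₂ t + l₁ t ^ 2 / 2) := by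
      intro t; ring
    rw [Finset.sum_congr rfl fun t _ => g2 t, Finset.sum_add_distrib, Finset.sum_add_distrib, Finset.sum_const, nsmul_eq_mul,
      ← Finset.mul_sum, ← Finset.mul_sum]
    field_simp
    ring_nf
  have hdiff : ‖avg Finset.univ (fun t => Complex.exp (z t)) -
      avg Finset.univ (fun t => 1 + l₁ t * Y + (l₂ t * Y ^ 2 + (l₁ t * Y) ^ 2 / 2))‖ ≤ BE A₀ A₁ A₂ * ‖Y‖ ^ 3 := by
    rw [avg_sub']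
    have hB : 0 ≤ BE A₀ A₁ A₂ := by unfold BE; positivity
    exact norm_avg_le _ _ _ (by positivity) fun t _ => hpt t
  have e : avg Finset.univ (fun t => Complex.exp (z t)) - 1 = (avg Finset.univ (fun t => Complex.exp (z t)) -
      avg Finset.univ (fun t => 1 + l₁ t * Y + (l₂ t * Y ^ 2 + (l₁ t * Y) ^ 2 / 2))) +
      (avg Finset.univ (fun t => 1 + l₁ t * Y + (l₂ t * Y ^ 2 + (l₁ t * Y) ^ 2 / 2)) - 1) := by ring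
  rw [e, hmain]
  refine (norm_add_le _ _).trans ?_
  have h3 : ‖avg Finset.univ l₁ * Y + avg Finset.univ (fun t => l₂ t + l₁ t ^ 2 / 2) * Y ^ 2‖ ≤ C₁ * ‖Y‖ + C₂ * ‖Y‖ ^ 2 := by
    refine (norm_add_le _ _).trans (add_le_add ?_ ?_)
    · rw [norm_mul]; exact mul_le_mul_of_nonneg_right m1 (norm_nonneg _)
    · rw [norm_mul, norm_pow]; exact mul_le_mul_of_nonneg_right m2 (by positivity)
  linarith

section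
variable {K : Type} [Field K] [NumberField K] {J : Type} [Fintype J] [DecidableEq J]

/-- Data of the second order: the exponents of the zeta factors are `w / 2` and `w`. -/
structure Dat (K : Type) [Field K] [NumberField K] (J : Type) [Fintype J] [DecidableEq J] where
  A : Loc K J
  w : ℕ
  hw : A.h = (w : ℝ) / 2
  R : ℤ
  ρ : ℤ
  V : ℤ
  η : ℤ
  C : ℝ
  C_nonneg : 0 ≤ C
  B : Set (HeightOneSpectrum (𝓞 K))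
  B_fin : B.Finite
  even : Even w → ρ = 0
  odd : Odd w → R = 0
  m1 : ∀ v, v ∉ B → |(∑ t, A.a v t 0 / Real.sqrt (nv v) ^ w) / (Fintype.card (J → kv v) : ℝ) - (R - ρ / Real.sqrt (nv v))| ≤ C / nv v
  m2 : ∀ v, v ∉ B → |(∑ t, (A.a v t 0 / Real.sqrt (nv v) ^ w) ^ 2) / (Fintype.card (J → kv v) : ℝ) - V| ≤ C / Real.sqrt (nv v)
  m3 : ∀ v, v ∉ B → |(∑ t, A.a v t 1 / Real.sqrt (nv v) ^ (2 * w)) / (Fintype.card (J → kv v) : ℝ) - η| ≤ C / Real.sqrt (nv v)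

namespace Dat
variable (𝓓 : Dat K J)

/-- the exponent of the first zeta factor -/
noncomputable def c₀ (k : ℂ) : ℂ := k * ((𝓓.R : ℂ) - 𝓓.ρ)

/-- the exponent of the second zeta factor -/
noncomputable def c₁ (k : ℂ) : ℂ := (k ^ 2 * ((𝓓.V : ℂ) - (𝓓.R : ℂ) ^ 2) + k * ((𝓓.η : ℂ) - 𝓓.R)) / 2

/-- `e` -/
def e : Fin 2 → ℕ := ![𝓓.w / 2, 𝓓.w]

/-- `f` -/
def f : Fin 2 → ℕ := ![1, 2]

theorem adm : Adm 𝓓.A 𝓓.e f (𝓓.A.h + 1 / 3) := by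
  refine ⟨by linarith, fun l => ?_⟩
  have h := 𝓓.hw
  fin_cases l
  · refine ⟨le_rfl, ?_⟩
    have h1 : (((𝓓.w / 2 : ℕ)) : ℝ) ≤ (𝓓.w : ℝ) / 2 := Nat.cast_div_le
    change (((𝓓.w / 2 : ℕ)) : ℝ) ≤ (𝓓.A.h + 1 / 3) * ((1 : ℕ) : ℝ)
    push_cast
    linarith
  · refine ⟨by decide, ?_⟩
    change ((𝓓.w : ℕ) : ℝ) ≤ (𝓓.A.h + 1 / 3) * ((2 : ℕ) : ℝ)
    push_cast
    linarith

/-- the ratio of the argument of the first zeta factor to `Y` -/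
noncomputable def bt (q : ℝ) : ℝ := if Even 𝓓.w then 1 else 1 / Real.sqrt q

theorem bt_eq {q : ℝ} (hq : 0 < q) : q ^ (𝓓.w / 2) = 𝓓.bt q * Real.sqrt q ^ 𝓓.w := by
  have hs : 0 < Real.sqrt q := Real.sqrt_pos.2 hq
  unfold bt
  split_ifs with h
  · obtain ⟨r, hr⟩ := h
    rw [show 𝓓.w / 2 = r by omega, hr, ← two_mul, pow_mul, Real.sq_sqrt hq.le, one_mul]
  · rw [Nat.not_even_iff_odd] at h
    obtain ⟨r, hr⟩ := h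
    rw [show 𝓓.w / 2 = r by omega, hr, pow_succ, pow_mul, Real.sq_sqrt hq.le]
    field_simp

theorem bt_bounds {q : ℝ} (hq : 1 ≤ q) : 0 ≤ 𝓓.bt q ∧ 𝓓.bt q ≤ 1 := by
  have hs : 1 ≤ Real.sqrt q := Real.one_le_sqrt.2 hq
  unfold bt
  split_ifs
  · exact ⟨zero_le_one, le_rfl⟩
  · refine ⟨by positivity, ?_⟩
    rw [div_le_one (by linarith)]
    exact hs

/-- the constant of the second order -/
noncomputable def C₂ (k : ℂ) : ℝ := ‖k‖ * 𝓓.C + ‖k‖ ^ 2 * 𝓓.C + ‖k‖ ^ 2 * |(𝓓.R : ℝ)| * 𝓓.C + ‖𝓓.c₀ k‖ + ‖k‖ * ‖𝓓.c₀ k‖ * 𝓓.A.D + ‖𝓓.c₀ k‖ ^ 2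

theorem mean_one (k : ℂ) {q E₁ : ℝ} (h : |E₁ - (𝓓.R - 𝓓.ρ / Real.sqrt q)| ≤ 𝓓.C / q) :
    ‖k * (E₁ : ℂ) - 𝓓.c₀ k * 𝓓.bt q‖ ≤ ‖k‖ * 𝓓.C / q := by
  have e : k * (E₁ : ℂ) - 𝓓.c₀ k * 𝓓.bt q = k * ((E₁ - (𝓓.R - 𝓓.ρ / Real.sqrt q) : ℝ) : ℂ) := by
    unfold c₀ bt
    push_cast
    rcases Nat.even_or_odd 𝓓.w with hw | hw
    · rw [if_pos hw, 𝓓.even hw]
      push_cast
      ring
    · rw [if_neg (Nat.not_even_iff_odd.2 hw), 𝓓.odd hw]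
      push_cast
      ring
  rw [e, norm_mul, Complex.norm_real, Real.norm_eq_abs, mul_div_assoc]
  exact mul_le_mul_of_nonneg_left h (norm_nonneg _)

theorem mean_two (k : ℂ) {q E₁ E₂ E₃ : ℝ} (hq : 1 ≤ q) (h1 : |E₁ - (𝓓.R - 𝓓.ρ / Real.sqrt q)| ≤ 𝓓.C / q)
    (h2 : |E₂ - 𝓓.V| ≤ 𝓓.C / Real.sqrt q) (h3 : |E₃ - 𝓓.η| ≤ 𝓓.C / Real.sqrt q) (h4 : |E₁| ≤ 𝓓.A.D) :
    ‖k / 2 * (E₃ : ℂ) - 𝓓.c₀ k * 𝓓.bt q ^ 2 / 2 - 𝓓.c₁ k +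
      (k ^ 2 * E₂ - 2 * k * 𝓓.c₀ k * 𝓓.bt q * E₁ + 𝓓.c₀ k ^ 2 * 𝓓.bt q ^ 2) / 2‖ ≤ 𝓓.C₂ k / Real.sqrt q := by
  have hs : 1 ≤ Real.sqrt q := Real.one_le_sqrt.2 hq
  obtain ⟨s, hsd⟩ : ∃ s, s = Real.sqrt q := ⟨_, rfl⟩
  have hq2 : q = s * s := by rw [hsd, Real.mul_self_sqrt (by linarith)]
  rw [← hsd] at hs h1 h2 h3 ⊢
  have hs0 : 0 < s := by linarith
  have hC := 𝓓.C_nonneg
  have hD := 𝓓.A.D_nonneg
  have n2 : ‖(2 : ℂ)‖ = 2 := by simp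
  have g2 : ‖k ^ 2 / 2 * ((E₂ - 𝓓.V : ℝ) : ℂ)‖ ≤ ‖k‖ ^ 2 * 𝓓.C / s := by
    rw [norm_mul, norm_div, norm_pow, n2, Complex.norm_real, Real.norm_eq_abs, mul_div_assoc]
    have : 0 ≤ ‖k‖ ^ 2 * |E₂ - 𝓓.V| := by positivity
    have h5 := mul_le_mul_of_nonneg_left h2 (by positivity : 0 ≤ ‖k‖ ^ 2)
    linarith
  have g3 : ‖k / 2 * ((E₃ - 𝓓.η : ℝ) : ℂ)‖ ≤ ‖k‖ * 𝓓.C / s := by
    rw [norm_mul, norm_div, n2, Complex.norm_real, Real.norm_eq_abs, mul_div_assoc]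
    have : 0 ≤ ‖k‖ * |E₃ - 𝓓.η| := by positivity
    have h5 := mul_le_mul_of_nonneg_left h3 (norm_nonneg k)
    linarith
  rcases Nat.even_or_odd 𝓓.w with hw | hw
  · have hρ := 𝓓.even hw
    have hbt : 𝓓.bt q = 1 := if_pos hw
    have hc0 : 𝓓.c₀ k = k * 𝓓.R := by unfold c₀; rw [hρ]; push_cast; ring
    have e : k / 2 * (E₃ : ℂ) - 𝓓.c₀ k * 𝓓.bt q ^ 2 / 2 - 𝓓.c₁ k +
        (k ^ 2 * E₂ - 2 * k * 𝓓.c₀ k * 𝓓.bt q * E₁ + 𝓓.c₀ k ^ 2 * 𝓓.bt q ^ 2) / 2 =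
        k ^ 2 / 2 * ((E₂ - 𝓓.V : ℝ) : ℂ) + k / 2 * ((E₃ - 𝓓.η : ℝ) : ℂ) -
          k ^ 2 * 𝓓.R * ((E₁ - (𝓓.R - 𝓓.ρ / s) : ℝ) : ℂ) := by
      rw [hbt, hc0, hρ]
      unfold c₁
      push_cast
      ring
    have g1 : ‖k ^ 2 * 𝓓.R * ((E₁ - (𝓓.R - 𝓓.ρ / s) : ℝ) : ℂ)‖ ≤ ‖k‖ ^ 2 * |(𝓓.R : ℝ)| * 𝓓.C / s := by
      rw [norm_mul, norm_mul, norm_pow, Complex.norm_real, Real.norm_eq_abs, mul_div_assoc, Complex.norm_intCast]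
      refine mul_le_mul_of_nonneg_left (h1.trans ?_) (by positivity)
      rw [hq2]
      exact div_le_div_of_nonneg_left hC hs0 (le_mul_of_one_le_right hs0.le hs)
    rw [e]
    refine (norm_sub_le _ _).trans ((add_le_add ((norm_add_le _ _).trans (add_le_add g2 g3)) g1).trans ?_)
    have g4 : 0 ≤ (‖𝓓.c₀ k‖ + ‖k‖ * ‖𝓓.c₀ k‖ * 𝓓.A.D + ‖𝓓.c₀ k‖ ^ 2) / s := by positivity
    have g5 : 𝓓.C₂ k / s = ‖k‖ ^ 2 * 𝓓.C / s + ‖k‖ * 𝓓.C / s + ‖k‖ ^ 2 * |(𝓓.R : ℝ)| * 𝓓.C / s +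
        (‖𝓓.c₀ k‖ + ‖k‖ * ‖𝓓.c₀ k‖ * 𝓓.A.D + ‖𝓓.c₀ k‖ ^ 2) / s := by
      unfold C₂; ring
    rw [g5]
    linarith
  · have hR := 𝓓.odd hw
    have hbt : 𝓓.bt q = 1 / s := by rw [hsd]; exact if_neg (Nat.not_even_iff_odd.2 hw)
    have e : k / 2 * (E₃ : ℂ) - 𝓓.c₀ k * 𝓓.bt q ^ 2 / 2 - 𝓓.c₁ k +
        (k ^ 2 * E₂ - 2 * k * 𝓓.c₀ k * 𝓓.bt q * E₁ + 𝓓.c₀ k ^ 2 * 𝓓.bt q ^ 2) / 2 =
        (k ^ 2 / 2 * ((E₂ - 𝓓.V : ℝ) : ℂ) + k / 2 * ((E₃ - 𝓓.η : ℝ) : ℂ)) +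
          (-(𝓓.c₀ k * ((1 / s ^ 2 : ℝ) : ℂ) / 2) - k * 𝓓.c₀ k * ((E₁ / s : ℝ) : ℂ) + 𝓓.c₀ k ^ 2 * ((1 / s ^ 2 : ℝ) : ℂ) / 2) := by
      rw [hbt]
      unfold c₁
      rw [hR]
      have hsc : (s : ℂ) ≠ 0 := by exact_mod_cast hs0.ne'
      push_cast
      field_simp
      ring
    have i2 : 1 / s ^ 2 ≤ 1 / s := one_div_le_one_div_of_le hs0 (by nlinarith)
    have i3 : 0 ≤ 1 / s ^ 2 := by positivity
    have g6 : ‖𝓓.c₀ k * ((1 / s ^ 2 : ℝ) : ℂ) / 2‖ ≤ ‖𝓓.c₀ k‖ / s := by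
      rw [norm_div, norm_mul, n2, Complex.norm_real, Real.norm_of_nonneg i3]
      have h5 := mul_le_mul_of_nonneg_left i2 (norm_nonneg (𝓓.c₀ k))
      have h6 : 0 ≤ ‖𝓓.c₀ k‖ * (1 / s ^ 2) := by positivity
      have h7 : ‖𝓓.c₀ k‖ / s = ‖𝓓.c₀ k‖ * (1 / s) := by ring
      rw [h7]
      linarith
    have g7 : ‖k * 𝓓.c₀ k * ((E₁ / s : ℝ) : ℂ)‖ ≤ ‖k‖ * ‖𝓓.c₀ k‖ * 𝓓.A.D / s := by
      rw [norm_mul, norm_mul, Complex.norm_real, Real.norm_eq_abs, abs_div, abs_of_pos hs0, mul_div_assoc]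
      gcongr
    have g8 : ‖𝓓.c₀ k ^ 2 * ((1 / s ^ 2 : ℝ) : ℂ) / 2‖ ≤ ‖𝓓.c₀ k‖ ^ 2 / s := by
      rw [norm_div, norm_mul, norm_pow, n2, Complex.norm_real, Real.norm_of_nonneg i3]
      have h5 := mul_le_mul_of_nonneg_left i2 (by positivity : 0 ≤ ‖𝓓.c₀ k‖ ^ 2)
      have h6 : 0 ≤ ‖𝓓.c₀ k‖ ^ 2 * (1 / s ^ 2) := by positivity
      have h7 : ‖𝓓.c₀ k‖ ^ 2 / s = ‖𝓓.c₀ k‖ ^ 2 * (1 / s) := by ring
      rw [h7]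
      linarith
    rw [e]
    have j1 : ‖-(𝓓.c₀ k * ((1 / s ^ 2 : ℝ) : ℂ) / 2) - k * 𝓓.c₀ k * ((E₁ / s : ℝ) : ℂ) + 𝓓.c₀ k ^ 2 * ((1 / s ^ 2 : ℝ) : ℂ) / 2‖ ≤
        ‖𝓓.c₀ k‖ / s + ‖k‖ * ‖𝓓.c₀ k‖ * 𝓓.A.D / s + ‖𝓓.c₀ k‖ ^ 2 / s := by
      refine (norm_add_le _ _).trans (add_le_add ((norm_sub_le _ _).trans (add_le_add ?_ g7)) g8)
      rw [norm_neg]; exact g6
    refine (norm_add_le _ _).trans ((add_le_add ((norm_add_le _ _).trans (add_le_add g2 g3)) j1).trans ?_)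
    have g4 : 0 ≤ ‖k‖ ^ 2 * |(𝓓.R : ℝ)| * 𝓓.C / s := by positivity
    have g5 : 𝓓.C₂ k / s = ‖k‖ ^ 2 * 𝓓.C / s + ‖k‖ * 𝓓.C / s + ‖k‖ ^ 2 * |(𝓓.R : ℝ)| * 𝓓.C / s +
        (‖𝓓.c₀ k‖ / s + ‖k‖ * ‖𝓓.c₀ k‖ * 𝓓.A.D / s + ‖𝓓.c₀ k‖ ^ 2 / s) := by
      unfold C₂; ring
    rw [g5]
    linarith

theorem h_eq (v : HeightOneSpectrum (𝓞 K)) : (nv v : ℝ) ^ 𝓓.A.h = Real.sqrt (nv v) ^ 𝓓.w := by
  rw [𝓓.hw, Real.sqrt_eq_rpow, ← Real.rpow_natCast, ← Real.rpow_mul (nv_pos v).le]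
  congr 1
  ring

/-- **The local means are close to one.** -/
theorem maj (k : ℂ) : Maj 𝓓.A 𝓓.e f (𝓓.A.h + 1 / 3) k ![𝓓.c₀ k, 𝓓.c₁ k] := by
  refine maj_of 𝓓.adm k _ 𝓓.B 𝓓.B_fin fun σ hσ => ?_
  have hσ0 : 𝓓.A.h < σ := by linarith
  have hD := 𝓓.A.D_nonneg
  set y₀ : ℝ := 2 ^ (𝓓.A.h - σ) with hy₀
  have hy1 : y₀ < 1 := Real.rpow_lt_one_of_one_lt_of_neg (by norm_num) (by linarith)
  have hy0 : 0 < y₀ := by rw [hy₀]; positivity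
  have hw : 0 < (1 - y₀)⁻¹ := inv_pos.2 (by linarith)
  obtain ⟨A₀, hA₀⟩ : ∃ x : ℝ, x = (‖k‖ * 𝓓.A.D + ‖𝓓.c₀ k‖ + ‖𝓓.c₁ k‖) * (1 - y₀)⁻¹ := ⟨_, rfl⟩
  obtain ⟨A₁, hA₁⟩ : ∃ x : ℝ, x = ‖k‖ * 𝓓.A.D + ‖𝓓.c₀ k‖ := ⟨_, rfl⟩
  obtain ⟨A₂, hA₂⟩ : ∃ x : ℝ, x = ‖k‖ * 𝓓.A.D + ‖𝓓.c₀ k‖ + ‖𝓓.c₁ k‖ := ⟨_, rfl⟩
  have p0 : 0 ≤ A₀ := by rw [hA₀]; positivity
  have p1 : 0 ≤ A₁ := by rw [hA₁]; positivity
  have p2 : 0 ≤ A₂ := by rw [hA₂]; positivity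
  have pC : 0 ≤ 𝓓.C₂ k := by
    have := 𝓓.C_nonneg
    unfold C₂; positivity
  have pC1 : 0 ≤ ‖k‖ * 𝓓.C := mul_nonneg (norm_nonneg _) 𝓓.C_nonneg
  have pB : 0 ≤ BE A₀ A₁ A₂ := by unfold BE; positivity
  refine ⟨fun v => ‖k‖ * 𝓓.C * (nv v : ℝ) ^ (-(1 + (σ - 𝓓.A.h))) + 𝓓.C₂ k * (nv v : ℝ) ^ (-(1 / 2 + 2 * (σ - 𝓓.A.h))) +
    BE A₀ A₁ A₂ * (nv v : ℝ) ^ (-(3 * (σ - 𝓓.A.h))), ?_, fun v hv s hs => ?_⟩
  · exact (((Pool.Agent.H921R2.TatePole.nm_summable (K := K) (x := 1 + (σ - 𝓓.A.h)) (by linarith)).mul_left _).add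
        ((Pool.Agent.H921R2.TatePole.nm_summable (K := K) (x := 1 / 2 + 2 * (σ - 𝓓.A.h)) (by linarith)).mul_left _)).add
        ((Pool.Agent.H921R2.TatePole.nm_summable (K := K) (x := 3 * (σ - 𝓓.A.h)) (by linarith)).mul_left _)
  · have hnv := nv_pos v
    have h1nv := one_le_nv v
    have h2nv : (2 : ℝ) ≤ nv v := by exact_mod_cast two_le_nv v
    obtain ⟨Q, hQ⟩ : ∃ Q : ℝ, Q = (nv v : ℝ) ^ 𝓓.A.h := ⟨_, rfl⟩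
    have hQ0 : 0 < Q := by rw [hQ]; exact Real.rpow_pos_of_pos hnv _
    have hQs : Q = Real.sqrt (nv v) ^ 𝓓.w := by rw [hQ, 𝓓.h_eq]
    have hQw : Q ^ 2 = (nv v : ℝ) ^ 𝓓.w := by
      rw [hQs, ← pow_mul, mul_comm, pow_mul, Real.sq_sqrt hnv.le]
    obtain ⟨X, hX⟩ : ∃ X : ℂ, X = xv v s := ⟨_, rfl⟩
    obtain ⟨Y, hY⟩ : ∃ Y : ℂ, Y = (Q : ℂ) * X := ⟨_, rfl⟩
    have hYn : ‖Y‖ = Q * ‖X‖ := by rw [hY, norm_mul, Complex.norm_real, Real.norm_of_nonneg hQ0.le]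
    have hYe : ‖Y‖ = (nv v : ℝ) ^ (𝓓.A.h - s.re) := by rw [hYn, hX, hQ]; exact nvh_xv 𝓓.A v s
    have hYσ : ‖Y‖ ≤ (nv v : ℝ) ^ (𝓓.A.h - σ) := by
      rw [hYe]; exact Real.rpow_le_rpow_of_exponent_le h1nv (by linarith)
    have hYy : ‖Y‖ ≤ y₀ := hYσ.trans (Real.rpow_le_rpow_of_nonpos (by norm_num) h2nv (by linarith))
    have hY1 : ‖Y‖ ≤ 1 := by linarith
    have hYn0 : 0 ≤ ‖Y‖ := norm_nonneg _
    obtain ⟨b, hb⟩ : ∃ b : ℝ, b = 𝓓.bt (nv v) := ⟨_, rfl⟩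
    obtain ⟨hb0, hb1⟩ : 0 ≤ b ∧ b ≤ 1 := by rw [hb]; exact 𝓓.bt_bounds h1nv
    have hQc : (Q : ℂ) ≠ 0 := by exact_mod_cast hQ0.ne'
    have z0 : za 𝓓.e f v s 0 = (b : ℂ) * Y := by
      unfold za
      have h1 : ((nv v : ℝ) : ℂ) ^ (𝓓.w / 2) = ((b * Q : ℝ) : ℂ) := by
        rw [hb, hQs, ← 𝓓.bt_eq hnv]; push_cast; rfl
      change ((nv v : ℝ) : ℂ) ^ (𝓓.w / 2) * xv v s ^ 1 = _
      rw [h1, ← hX, hY]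
      push_cast
      ring
    have z1 : za 𝓓.e f v s 1 = Y ^ 2 := by
      unfold za
      have h1 : ((nv v : ℝ) : ℂ) ^ 𝓓.w = ((Q ^ 2 : ℝ) : ℂ) := by rw [hQw]; push_cast; rfl
      change ((nv v : ℝ) : ℂ) ^ 𝓓.w * xv v s ^ 2 = _
      rw [h1, ← hX, hY]
      push_cast
      ring
    have hex : ∀ t, ex 𝓓.A 𝓓.e f k ![𝓓.c₀ k, 𝓓.c₁ k] v s t = k * ell (fun m => (𝓓.A.a v t m : ℂ)) X -
        (𝓓.c₀ k * ell (fun _ => 1) ((b : ℂ) * Y) + 𝓓.c₁ k * ell (fun _ => 1) (Y ^ 2)) := by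
      intro t
      unfold ex
      rw [Fin.sum_univ_two, z0, z1, ← hX]
      rfl
    have ha := fun t => a_bound 𝓓.A v t
    rw [← hQ] at ha
    have hbY : ‖(b : ℂ) * Y‖ ≤ ‖Y‖ := by
      rw [norm_mul, Complex.norm_real, Real.norm_of_nonneg hb0]
      exact mul_le_of_le_one_left hYn0 hb1
    have hbY' : 1 * ‖(b : ℂ) * Y‖ ≤ y₀ := by rw [one_mul]; linarith
    have hY2 : ‖Y ^ 2‖ ≤ ‖Y‖ := by
      rw [norm_pow, sq]; exact mul_le_of_le_one_left hYn0 hY1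
    have hY2' : 1 * ‖Y ^ 2‖ ≤ y₀ := by rw [one_mul]; linarith
    have hXQ : Q * ‖X‖ ≤ y₀ := by rw [← hYn]; exact hYy
    obtain ⟨l₁, hl₁⟩ : ∃ l : (J → kv v) → ℂ, l = fun t => k * ((𝓓.A.a v t 0 : ℂ) / Q) - 𝓓.c₀ k * b := ⟨_, rfl⟩
    obtain ⟨l₂, hl₂⟩ : ∃ l : (J → kv v) → ℂ, l = fun t => k / 2 * ((𝓓.A.a v t 1 : ℂ) / Q ^ 2) - 𝓓.c₀ k * b ^ 2 / 2 - 𝓓.c₁ k := ⟨_, rfl⟩
    have hz : ∀ t, ‖ex 𝓓.A 𝓓.e f k ![𝓓.c₀ k, 𝓓.c₁ k] v s t‖ ≤ A₀ * ‖Y‖ := by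
      intro t
      rw [hex]
      have t1 := ell_le hD hQ0.le (ha t) hXQ hy1
      have t2 := ell_le (a := fun _ => (1 : ℂ)) (D := 1) (Q := 1) zero_le_one zero_le_one one_bound hbY' hy1
      have t3 := ell_le (a := fun _ => (1 : ℂ)) (D := 1) (Q := 1) zero_le_one zero_le_one one_bound hY2' hy1
      rw [div_eq_mul_inv, ← hYn] at t1
      rw [div_eq_mul_inv, one_mul, one_mul] at t2 t3
      have u2 : ‖ell (fun _ => 1) ((b : ℂ) * Y)‖ ≤ ‖Y‖ * (1 - y₀)⁻¹ := t2.trans (mul_le_mul_of_nonneg_right hbY hw.le)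
      have u3 : ‖ell (fun _ => 1) (Y ^ 2)‖ ≤ ‖Y‖ * (1 - y₀)⁻¹ := t3.trans (mul_le_mul_of_nonneg_right hY2 hw.le)
      have s1 : ‖k * ell (fun m => (𝓓.A.a v t m : ℂ)) X‖ ≤ ‖k‖ * (𝓓.A.D * ‖Y‖ * (1 - y₀)⁻¹) := by
        rw [norm_mul]; exact mul_le_mul_of_nonneg_left t1 (norm_nonneg _)
      have s2 : ‖𝓓.c₀ k * ell (fun _ => 1) ((b : ℂ) * Y)‖ ≤ ‖𝓓.c₀ k‖ * (‖Y‖ * (1 - y₀)⁻¹) := by
        rw [norm_mul]; exact mul_le_mul_of_nonneg_left u2 (norm_nonneg _)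
      have s3 : ‖𝓓.c₁ k * ell (fun _ => 1) (Y ^ 2)‖ ≤ ‖𝓓.c₁ k‖ * (‖Y‖ * (1 - y₀)⁻¹) := by
        rw [norm_mul]; exact mul_le_mul_of_nonneg_left u3 (norm_nonneg _)
      refine (norm_sub_le _ _).trans ((add_le_add s1 ((norm_add_le _ _).trans (add_le_add s2 s3))).trans (le_of_eq ?_))
      rw [hA₀]; ring
    have hE : ∀ t, ‖ex 𝓓.A 𝓓.e f k ![𝓓.c₀ k, 𝓓.c₁ k] v s t - (l₁ t * Y + l₂ t * Y ^ 2)‖ ≤ A₀ * ‖Y‖ ^ 3 := by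
      intro t
      have t1 := ell_tail hD hQ0.le (ha t) hXQ hy1 2
      have t2 := ell_tail (a := fun _ => (1 : ℂ)) (D := 1) (Q := 1) zero_le_one zero_le_one one_bound hbY' hy1 2
      have t3 := ell_tail (a := fun _ => (1 : ℂ)) (D := 1) (Q := 1) zero_le_one zero_le_one one_bound hY2' hy1 1
      rw [← hYn] at t1
      rw [one_mul, one_mul] at t2 t3
      simp only [Finset.sum_range_succ, Finset.sum_range_zero, zero_add, Nat.cast_zero, Nat.cast_one, div_eq_mul_inv,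
        pow_one, one_mul, inv_one, mul_one] at t1 t2 t3
      have e : ex 𝓓.A 𝓓.e f k ![𝓓.c₀ k, 𝓓.c₁ k] v s t - (l₁ t * Y + l₂ t * Y ^ 2) =
          k * (ell (fun m => (𝓓.A.a v t m : ℂ)) X - (𝓓.A.a v t 0 * X + 𝓓.A.a v t 1 * X ^ (1 + 1) * (1 + 1)⁻¹)) -
          (𝓓.c₀ k * (ell (fun _ => 1) ((b : ℂ) * Y) - ((b : ℂ) * Y + ((b : ℂ) * Y) ^ (1 + 1) * (1 + 1)⁻¹)) +
            𝓓.c₁ k * (ell (fun _ => 1) (Y ^ 2) - Y ^ 2)) := by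
        rw [hex, hl₁, hl₂, hY]
        simp only
        field_simp
        ring
      rw [e]
      have v2 : ‖(b : ℂ) * Y‖ ^ (2 + 1) ≤ ‖Y‖ ^ 3 := pow_le_pow_left₀ (norm_nonneg _) hbY 3
      have v3 : ‖Y ^ 2‖ ^ (1 + 1) ≤ ‖Y‖ ^ 3 := by
        rw [norm_pow, ← pow_mul]
        exact pow_le_pow_of_le_one hYn0 hY1 (by norm_num)
      have s1 : ‖k * (ell (fun m => (𝓓.A.a v t m : ℂ)) X - (𝓓.A.a v t 0 * X + 𝓓.A.a v t 1 * X ^ (1 + 1) * (1 + 1)⁻¹))‖ ≤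
          ‖k‖ * (𝓓.A.D * ‖Y‖ ^ 3 * (1 - y₀)⁻¹) := by
        rw [norm_mul]; exact mul_le_mul_of_nonneg_left t1 (norm_nonneg _)
      have s2 : ‖𝓓.c₀ k * (ell (fun _ => 1) ((b : ℂ) * Y) - ((b : ℂ) * Y + ((b : ℂ) * Y) ^ (1 + 1) * (1 + 1)⁻¹))‖ ≤
          ‖𝓓.c₀ k‖ * (‖Y‖ ^ 3 * (1 - y₀)⁻¹) := by
        rw [norm_mul]; exact mul_le_mul_of_nonneg_left (t2.trans (mul_le_mul_of_nonneg_right v2 hw.le)) (norm_nonneg _)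
      have s3 : ‖𝓓.c₁ k * (ell (fun _ => 1) (Y ^ 2) - Y ^ 2)‖ ≤ ‖𝓓.c₁ k‖ * (‖Y‖ ^ 3 * (1 - y₀)⁻¹) := by
        rw [norm_mul]; exact mul_le_mul_of_nonneg_left (t3.trans (mul_le_mul_of_nonneg_right v3 hw.le)) (norm_nonneg _)
      refine (norm_sub_le _ _).trans ((add_le_add s1 ((norm_add_le _ _).trans (add_le_add s2 s3))).trans (le_of_eq ?_))
      rw [hA₀]; ring
    have ha0 : ∀ t, ‖(𝓓.A.a v t 0 : ℂ) / Q‖ ≤ 𝓓.A.D := by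
      intro t
      have := ha t 0
      rw [zero_add, pow_one] at this
      rw [norm_div, Complex.norm_real (r := Q), Real.norm_of_nonneg hQ0.le, div_le_iff₀ hQ0]
      exact this
    have ha1 : ∀ t, ‖(𝓓.A.a v t 1 : ℂ) / Q ^ 2‖ ≤ 𝓓.A.D := by
      intro t
      have := ha t 1
      rw [norm_div, norm_pow, Complex.norm_real (r := Q), Real.norm_of_nonneg hQ0.le, div_le_iff₀ (by positivity)]
      exact this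
    have hb1l : ∀ t, ‖l₁ t‖ ≤ A₁ := by
      intro t
      rw [hl₁, hA₁]
      refine (norm_sub_le _ _).trans (add_le_add ?_ ?_)
      · rw [norm_mul]; exact mul_le_mul_of_nonneg_left (ha0 t) (norm_nonneg _)
      · rw [norm_mul, Complex.norm_real, Real.norm_of_nonneg hb0]
        exact mul_le_of_le_one_right (norm_nonneg _) hb1
    have n2 : ‖(2 : ℂ)‖ = 2 := by simp
    have hb2l : ∀ t, ‖l₂ t‖ ≤ A₂ := by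
      intro t
      rw [hl₂, hA₂]
      have w1 : ‖k / 2 * ((𝓓.A.a v t 1 : ℂ) / Q ^ 2)‖ ≤ ‖k‖ * 𝓓.A.D := by
        rw [norm_mul, norm_div, n2]
        have := mul_le_mul_of_nonneg_left (ha1 t) (norm_nonneg k)
        have h0 : 0 ≤ ‖k‖ * ‖(𝓓.A.a v t 1 : ℂ) / Q ^ 2‖ := by positivity
        linarith
      have w2 : ‖𝓓.c₀ k * (b : ℂ) ^ 2 / 2‖ ≤ ‖𝓓.c₀ k‖ := by
        rw [norm_div, norm_mul, norm_pow, n2, Complex.norm_real, Real.norm_of_nonneg hb0]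
        have h0 : b ^ 2 ≤ 1 := pow_le_one₀ hb0 hb1
        have h3 := mul_le_mul_of_nonneg_left h0 (norm_nonneg (𝓓.c₀ k))
        have h4 : 0 ≤ ‖𝓓.c₀ k‖ * b ^ 2 := by positivity
        linarith
      exact (norm_sub_le _ _).trans (add_le_add ((norm_sub_le _ _).trans (add_le_add w1 w2)) le_rfl)
    -- the means
    have hcard : (Fintype.card (J → kv v) : ℂ) ≠ 0 := by
      have : 0 < Fintype.card (J → kv v) := Fintype.card_pos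
      exact_mod_cast this.ne'
    obtain ⟨E₁, hE₁⟩ : ∃ E : ℝ, E = (∑ t, 𝓓.A.a v t 0 / Real.sqrt (nv v) ^ 𝓓.w) / (Fintype.card (J → kv v) : ℝ) := ⟨_, rfl⟩
    obtain ⟨E₂, hE₂⟩ : ∃ E : ℝ, E = (∑ t, (𝓓.A.a v t 0 / Real.sqrt (nv v) ^ 𝓓.w) ^ 2) / (Fintype.card (J → kv v) : ℝ) := ⟨_, rfl⟩
    obtain ⟨E₃, hE₃⟩ : ∃ E : ℝ, E = (∑ t, 𝓓.A.a v t 1 / Real.sqrt (nv v) ^ (2 * 𝓓.w)) / (Fintype.card (J → kv v) : ℝ) := ⟨_, rfl⟩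
    have q1 := 𝓓.m1 v hv
    have q2 := 𝓓.m2 v hv
    have q3 := 𝓓.m3 v hv
    rw [← hE₁] at q1
    rw [← hE₂] at q2
    rw [← hE₃] at q3
    have hQ2w : Real.sqrt (nv v) ^ (2 * 𝓓.w) = Q ^ 2 := by rw [hQs, ← pow_mul, mul_comm]
    rw [← hQs] at hE₁ hE₂
    rw [hQ2w] at hE₃
    have hE₁D : |E₁| ≤ 𝓓.A.D := by
      rw [hE₁, abs_div, abs_of_nonneg (by positivity : (0 : ℝ) ≤ (Fintype.card (J → kv v) : ℝ))]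
      rw [div_le_iff₀ (by exact_mod_cast Fintype.card_pos)]
      refine (Finset.abs_sum_le_sum_abs _ _).trans ?_
      have : ∀ t ∈ (Finset.univ : Finset (J → kv v)), |𝓓.A.a v t 0 / Q| ≤ 𝓓.A.D := by
        intro t _
        have h0 := ha0 t
        rw [norm_div, Complex.norm_real, Complex.norm_real, Real.norm_eq_abs, Real.norm_eq_abs, ← abs_div] at h0
        exact h0
      refine (Finset.sum_le_sum this).trans (le_of_eq ?_)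
      rw [Finset.sum_const, Finset.card_univ, nsmul_eq_mul, mul_comm]
    have M1 : ‖avg Finset.univ l₁‖ ≤ ‖k‖ * 𝓓.C / nv v := by
      have h := 𝓓.mean_one k q1
      rw [← hb] at h
      refine le_trans (le_of_eq ?_) h
      congr 1
      unfold avg
      rw [hl₁, hE₁, Finset.sum_sub_distrib, Finset.sum_const, nsmul_eq_mul, ← Finset.mul_sum, Finset.card_univ]
      push_cast
      field_simp
    have M2 : ‖avg Finset.univ (fun t => l₂ t + l₁ t ^ 2 / 2)‖ ≤ 𝓓.C₂ k / Real.sqrt (nv v) := by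
      have h := 𝓓.mean_two k h1nv q1 q2 q3 hE₁D
      rw [← hb] at h
      refine le_trans (le_of_eq ?_) h
      congr 1
      unfold avg
      have g : ∀ t, l₂ t + l₁ t ^ 2 / 2 = (-(𝓓.c₀ k * b ^ 2 / 2) - 𝓓.c₁ k + 𝓓.c₀ k ^ 2 * b ^ 2 / 2) + k / 2 * ((𝓓.A.a v t 1 : ℂ) / Q ^ 2) +
          k ^ 2 / 2 * ((𝓓.A.a v t 0 : ℂ) / Q) ^ 2 - k * 𝓓.c₀ k * b * ((𝓓.A.a v t 0 : ℂ) / Q) := by
        intro t
        rw [hl₁, hl₂]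
        ring
      rw [Finset.sum_congr rfl fun t _ => g t, Finset.sum_sub_distrib, Finset.sum_add_distrib, Finset.sum_add_distrib,
        Finset.sum_const, nsmul_eq_mul, ← Finset.mul_sum, ← Finset.mul_sum, ← Finset.mul_sum, Finset.card_univ, hE₁, hE₂, hE₃]
      push_cast
      field_simp
      ring
    have hfin := avg_exp_close (fun t => ex 𝓓.A 𝓓.e f k ![𝓓.c₀ k, 𝓓.c₁ k] v s t) l₁ l₂ Y p0 p1 p2 hY1 hz hE hb1l hb2l M1 M2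
    unfold Run7.h876.GN.hv
    refine hfin.trans (add_le_add (add_le_add ?_ ?_) ?_)
    · have h1 : (nv v : ℝ) ^ (-(1 + (σ - 𝓓.A.h))) = (nv v : ℝ) ^ (𝓓.A.h - σ) / nv v := by
        rw [show -(1 + (σ - 𝓓.A.h)) = (𝓓.A.h - σ) - 1 by ring, Real.rpow_sub hnv, Real.rpow_one]
      rw [h1]
      calc ‖k‖ * 𝓓.C / nv v * ‖Y‖ ≤ ‖k‖ * 𝓓.C / nv v * (nv v : ℝ) ^ (𝓓.A.h - σ) :=
            mul_le_mul_of_nonneg_left hYσ (by positivity)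
        _ = _ := by ring
    · have h1 : (nv v : ℝ) ^ (-(1 / 2 + 2 * (σ - 𝓓.A.h))) = ((nv v : ℝ) ^ (𝓓.A.h - σ)) ^ 2 / Real.sqrt (nv v) := by
        rw [← Real.rpow_natCast ((nv v : ℝ) ^ (𝓓.A.h - σ)) 2, ← Real.rpow_mul hnv.le, Real.sqrt_eq_rpow, ← Real.rpow_sub hnv]
        congr 1
        push_cast
        ring
      rw [h1]
      calc 𝓓.C₂ k / Real.sqrt (nv v) * ‖Y‖ ^ 2 ≤ 𝓓.C₂ k / Real.sqrt (nv v) * ((nv v : ℝ) ^ (𝓓.A.h - σ)) ^ 2 :=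
            mul_le_mul_of_nonneg_left (pow_le_pow_left₀ hYn0 hYσ 2) (by positivity)
        _ = _ := by ring
    · have h1 : (nv v : ℝ) ^ (-(3 * (σ - 𝓓.A.h))) = ((nv v : ℝ) ^ (𝓓.A.h - σ)) ^ 3 := by
        rw [← Real.rpow_natCast ((nv v : ℝ) ^ (𝓓.A.h - σ)) 3, ← Real.rpow_mul hnv.le]
        congr 1
        push_cast
        ring
      rw [h1]
      exact mul_le_mul_of_nonneg_left (pow_le_pow_left₀ hYn0 hYσ 3) pB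

end Dat

end

end Run7.h61.JL
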